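import Pool.Agent.H11.KT.Targets

/-!
# Normal subgroups which contain generators modulo the derived group
-/

set_option autoImplicit false

namespace Pool.Agent.H72.KT

open Pool.Agent.H11.EL
open Pool.Agent.H11.KT
open scoped commutatorElement

/-- (NO) a normal subgroup which contains generators modulo the derived group -/
theorem pf_NO : F_NO := by
  intro G _ hG S K hS hK hSK
  by_contra hne
  have hnt : Nontrivial (G ⧸ K) := by
    by_contra h
    rw [not_nontrivial_iff_subsingleton] at h
    apply hne
    rw [eq_top_iff]
    intro g _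
    have h1 : ((g : G) : G ⧸ K) = 1 := Subsingleton.elim _ _
    rwa [QuotientGroup.eq_one_iff] at h1
  have hsol : Group.IsSolvable (G ⧸ K) := inferInstance
  have hlt := Group.IsSolvable.commutator_lt_top_of_nontrivial (G := G ⧸ K)
  apply hlt.ne
  rw [eq_top_iff]
  have h1 : (⊤ : Subgroup (G ⧸ K)) = (⊤ : Subgroup G).map (QuotientGroup.mk' K) :=
    (Subgroup.map_top_of_surjective _ (QuotientGroup.mk'_surjective K)).symm
  rw [h1, ← hS, MonoidHom.map_closure, Subgroup.closure_le]
  rintro _ ⟨g, hg, rfl⟩
  rcases hg with hg | hg
  · have h2 : QuotientGroup.mk' K g = 1 := (QuotientGroup.eq_one_iff g).mpr (hSK hg)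
    rw [h2]
    exact Subgroup.one_mem _
  · have h3 : (commutator G).map (QuotientGroup.mk' K) ≤ commutator (G ⧸ K) := by
      rw [commutator_def, Subgroup.map_commutator, commutator_def]
      exact Subgroup.commutator_mono le_top le_top
    exact h3 ⟨g, hg, rfl⟩

end Pool.Agent.H72.KT
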